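import Pool.Agent.W2helper63.GP.Main
import Pool.Agent.Y739.SX.FA
import Pool.Agent.Y360.SX.F8
import Pool.Agent.Y429.SX.FB
import Pool.Agent.Y780.SX.Blk
import Pool.Agent.Y547.SX.Min
import Pool.Agent.Y246.SX.W1
import Pool.Agent.Y448.SX.W2
import Pool.Agent.Y620.SX.CRA
import Pool.Agent.Y812.SX.OMX
import Pool.Agent.Y953.SX.Ort
import Pool.Agent.Y76.SX.ARI
import Pool.Agent.Y369.SX.Ars
import Pool.Agent.Y809.SX.UB0
import Pool.Agent.Y4.SX.UB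
import Pool.Agent.Y604.SX.AS
import Pool.Agent.Y670.SX.TAY
import Pool.Agent.Y293.SX.TL2
import Pool.Agent.Y81.SX.T0
import Pool.Agent.Y475.SX.SHP
import Pool.Agent.Y77.SX.CTW
import Pool.Agent.Y978.SX.EUL
import Pool.Agent.Y852.SX.Loc
import Pool.Agent.Y686.SX.Lsm
import Pool.Agent.Y983.SX.EUT
import Pool.Agent.Y781.SX.LB
import Pool.Agent.Y81.SX.AAP
import Pool.Agent.Y96.SX.ZM
import Pool.Agent.Y514.SX.ZE
import Pool.Agent.Y901.SX.A1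
import Pool.Agent.Y54.SX.A2
import Pool.Agent.Y726.SX.TWC
import Pool.Agent.Y969.SM.Res
import Pool.Agent.Y969.SM.Fin
import Pool.Agent.Y969.SM.Win
import Pool.Agent.TH384.N4_FM
import Pool.Agent.TH806.N4.Abs

set_option autoImplicit false

/-! Project SX: all parts together. -/

namespace Pool.Agent.W2helper63.SX

open Filter Topology MeasureTheory
open Pool.Agent.Y969.SM
open Pool.Agent.H306R2.SM (om)
open Pool.Agent.H262R4.TM (Rng)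

theorem f8 : S_F8 := Pool.Agent.Y360.SX.t_F8
theorem cra : S_CRA := Pool.Agent.Y620.SX.t_CRA GP.v
theorem omx : S_OMX := Pool.Agent.Y812.SX.t_OMX
theorem ort : S_ORT := Pool.Agent.Y953.SX.t_ORT GP.sp
theorem ari : S_ARI := Pool.Agent.Y76.SX.t_ARI
theorem w2b : S_W2B := Pool.Agent.Y76.SX.t_W2B
theorem twc : S_TWC := Pool.Agent.Y726.SX.t_TWC
theorem loc : S_LOC := Pool.Agent.Y852.SX.t_LOC
theorem ctw : S_CTW := Pool.Agent.Y77.SX.t_CTW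
theorem aa : S_AA := Pool.Agent.Y81.SX.AAP.t_AA loc

/-- the model with a suitable parameter -/
theorem exists_k : ∃ k : ℕ, 2 ≤ k ∧ S_FA k := by
  obtain ⟨k₀, h⟩ := Pool.Agent.Y739.SX.t_FA
  exact ⟨max k₀ 2, le_max_right _ _, h _ (le_max_left _ _)⟩

theorem h3 {k : ℕ} (h : S_FA k) : ∀ᶠ T : ℝ in atTop, ∀ κ : ℕ, Rng T κ →
    ∫ t in Set.Ioi (0:ℝ), om κ (κ / T) t * |F0 k T t| ≤ Real.log T ^ 5 ∧
      IntegrableOn (fun t => om κ (κ / T) t * |F0 k T t|) (Set.Ioi 0) := by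
  obtain ⟨C, hC, h⟩ := h
  filter_upwards [h, Real.tendsto_log_atTop.eventually_ge_atTop C] with T hT hlog κ hκ
  obtain ⟨-, h1, -, -, h2, -⟩ := hT κ hκ
  refine ⟨h2.trans ?_, h1⟩
  have : (0 : ℝ) ≤ Real.log T ^ 4 := by positivity
  calc C * Real.log T ^ 4 ≤ Real.log T * Real.log T ^ 4 := mul_le_mul_of_nonneg_right hlog this
    _ = Real.log T ^ 5 := by ring

theorem h4 {k : ℕ} (h : S_FA k) : ∃ C : ℝ, 0 < C ∧ ∀ᶠ T : ℝ in atTop, ∀ κ : ℕ, Rng T κ →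
    ∫ t in Set.Ioi (0:ℝ), om κ (κ / T) t * Xz t ^ 4 ≤ C * Real.log T ^ 4 := by
  obtain ⟨C, hC, h⟩ := h
  refine ⟨C, hC, ?_⟩
  filter_upwards [h] with T hT κ hκ
  exact (hT κ hκ).2.2.2.2.2

theorem win : S_WIN := by
  obtain ⟨k, hk, hFA⟩ := exists_k
  have hFB : S_FB k := Pool.Agent.Y429.SX.t_FB f8 k hk
  have hW1 : S_W1 k := Pool.Agent.Y246.SX.t_W1 k hFA hFB GP.t_SM
  have hW2 : S_W2 k := Pool.Agent.Y448.SX.t_W2 k hFB (h3 hFA) GP.afe GP.t_SM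
  have hMIN : S_MIN k := Pool.Agent.Y547.SX.t_MIN k Pool.Agent.Y780.SX.t_BLK hFB (h3 hFA)
    (Pool.Agent.Y125.GP.t_LSW GP.sp) (Pool.Agent.Y545.GP.t_CR GP.v)
  have hTAY : S_TAY k := Pool.Agent.Y670.SX.t_TAY k cra omx ort hFA hFB
  have hUB0 : S_UB0 k := Pool.Agent.Y809.SX.t_UB0 twc Pool.Agent.TH384.N4_FM.t_FM Pool.Agent.Y369.SX.t_ARS k hk
  have hUB : S_UB k := Pool.Agent.Y4.SX.t_UB k hUB0 hFB
  have hTL2 : S_TL2 k := Pool.Agent.Y293.SX.t_TL2 k hUB ort ari hFB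
  have hAS : S_AS := Pool.Agent.Y604.SX.t_AS twc Pool.Agent.TH384.N4_FM.t_FM Pool.Agent.TH806.N4.a_ING
    Pool.Agent.Y901.SX.t_A1 Pool.Agent.Y54.SX.t_A2 ⟨k, hk, hFA⟩
  have hT0 : S_T0 k := Pool.Agent.Y81.SX.T0.t_T0 k hUB hAS hFA ort ari w2b hFB
  exact t_WIN k hFB hW1 hW2 hMIN hTAY hTL2 hT0 ctw GP.v

theorem shp : S_SHP := by
  obtain ⟨k, hk, hFA⟩ := exists_k
  exact Pool.Agent.Y475.SX.t_SHP GP.t_SM ctw (h4 hFA)

theorem eul : S_EUL := Pool.Agent.Y978.SX.t_EUL loc (Pool.Agent.Y983.SX.EUT.t_EUT Pool.Agent.Y686.SX.t_LSM) ort ari w2b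

theorem main : S_MAIN := t_MAIN win shp eul ctw

theorem rel : S_REL := t_REL main (Pool.Agent.Y781.SX.t_LB loc) (Pool.Agent.Y514.SX.t_ZE aa Pool.Agent.Y96.SX.t_ZM)

end Pool.Agent.W2helper63.SX
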